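import Mathlib
import Pool.Agent.H14.MonoPack

namespace Pool.Agent.Results.MP_b9e70b_co.C4Counter

open SimpleGraph

/-- For `H = C₄`, `r = 2`, `c = 1/2` no constant works: for every `C` there is a `d`-regular graph
on `n ≤ 2 d` vertices with a 2-edge-colouring in which every family of pairwise vertex-disjoint
monochromatic copies of `C₄` leaves more than `C` vertices uncovered. -/
theorem result :
    ∀ C : ℝ, ∃ (n d : ℕ) (G : SimpleGraph (Fin n)),
      (∀ v, (G.neighborSet v).ncard = d) ∧ (1 / 2 : ℝ) * n ≤ d ∧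
      ∃ χ : Sym2 (Fin n) → Fin 2,
        ∀ (k : ℕ) (f : Fin k → Copy (cycleGraph 4) G),
          (∀ i j, i ≠ j → Disjoint (Set.range (f i)) (Set.range (f j))) →
          (∀ i, ∃ c : Fin 2, ∀ a b, (cycleGraph 4).Adj a b → χ s(f i a, f i b) = c) →
          C < ({v | ∀ i, v ∉ Set.range (f i)}.ncard : ℝ) := by
  intro C
  obtain ⟨N, hN⟩ := exists_nat_gt C
  obtain ⟨p, hNp, hp⟩ := Nat.exists_infinite_primes N
  haveI : Fact p.Prime := ⟨hp⟩
  classical
  let e : Pool.Agent.H14.MonoPack.V p ≃ Fin (Nat.card (Pool.Agent.H14.MonoPack.V p)) :=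
    Finite.equivFin _
  let G' : SimpleGraph (Fin (Nat.card (Pool.Agent.H14.MonoPack.V p))) :=
    (Pool.Agent.H14.MonoPack.G p).comap e.symm
  refine ⟨_, 2 * p ^ 2, G', ?_, ?_,
    fun s => Pool.Agent.H14.MonoPack.col p (s.map e.symm), ?_⟩
  · intro v
    rw [← Pool.Agent.H14.MonoPack.deg_G p (e.symm v)]
    have : (Pool.Agent.H14.MonoPack.G p).neighborSet (e.symm v) = e.symm '' G'.neighborSet v := by
      ext w
      constructor
      · intro h
        refine ⟨e w, ?_, by simp⟩
        simpa [G'] using h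
      · rintro ⟨x, hx, rfl⟩
        exact hx
    rw [this, Set.ncard_image_of_injective _ e.symm.injective]
  · rw [Pool.Agent.H14.MonoPack.natCard_V]
    have h1 : ((2 * p ^ 2 - p : ℕ) : ℝ) ≤ ((2 * p ^ 2 : ℕ) : ℝ) := by
      exact_mod_cast Nat.sub_le _ _
    rw [Nat.cast_add]
    linarith
  · intro k f hd hm
    let g : Fin k → Copy (cycleGraph 4) (Pool.Agent.H14.MonoPack.G p) := fun i =>
      ⟨⟨fun a => e.symm (f i a), fun h => (f i).toHom.map_adj h⟩,
        fun a b h => (f i).injective (e.symm.injective h)⟩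
    have hg : ∀ i a, g i a = e.symm (f i a) := fun _ _ => rfl
    have := Pool.Agent.H14.MonoPack.main p k g ?_ ?_
    · have hs : {v | ∀ i, v ∉ Set.range (g i)} = e.symm '' {v | ∀ i, v ∉ Set.range (f i)} := by
        ext w
        constructor
        · intro h
          refine ⟨e w, ?_, by simp⟩
          rintro i ⟨a, ha⟩
          exact h i ⟨a, by rw [hg, ha]; simp⟩
        · rintro ⟨x, hx, rfl⟩ i ⟨a, ha⟩
          rw [hg] at ha
          exact hx i ⟨a, e.symm.injective ha⟩
      rw [hs, Set.ncard_image_of_injective _ e.symm.injective] at this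
      have h2 : (N : ℝ) ≤ ({v | ∀ i, v ∉ Set.range (f i)}.ncard : ℝ) := by
        exact_mod_cast hNp.trans this
      linarith
    · intro i j hij
      rw [Set.disjoint_left]
      rintro _ ⟨a, rfl⟩ ⟨b, hb⟩
      rw [hg, hg] at hb
      exact Set.disjoint_left.1 (hd i j hij) ⟨a, rfl⟩ ⟨b, e.symm.injective hb⟩
    · intro i
      obtain ⟨c, hc⟩ := hm i
      exact ⟨c, fun a b h => by simpa [hg] using hc a b h⟩

end Pool.Agent.Results.MP_b9e70b_co.C4Counter
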